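import Pool.Agent.Helper20.QP.St3
import Pool.Agent.Helper68.QC.Cal

/-!
# Project QD, part P: module LEQ (the piecewise affine stretch is the normalised solution)
-/

set_option autoImplicit false

open Filter Topology Matrix Set Metric MeasureTheory
open scoped ComplexConjugate ENNReal ContDiff

namespace Pool.Agent.Helper44.QP

open Pool.Agent.Helper35.PM Pool.Agent.Helper20.QD Pool.Agent.Helper20.QP
open Pool.Agent.Helper68.QC (nq Bel Sol WD L2 Tst)

/-! ### real function -/

/-- the clamp -/
private noncomputable def pp (a h y : ℝ) : ℝ := max 0 (min (y - a) h)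

private theorem pp_lo {a h y : ℝ} (hy : y ≤ a) : pp a h y = 0 := by
  unfold pp
  exact max_eq_left ((min_le_left _ _).trans (by linarith))

private theorem pp_mid {a h y : ℝ} (h1 : a ≤ y) (h2 : y ≤ a + h) : pp a h y = y - a := by
  unfold pp
  rw [min_eq_left (by linarith), max_eq_right (by linarith)]

private theorem pp_hi {a h y : ℝ} (hh : 0 ≤ h) (h2 : a + h ≤ y) : pp a h y = h := by
  unfold pp
  rw [min_eq_right (by linarith), max_eq_right hh]

private theorem pp_cont (a h : ℝ) : Continuous (pp a h) := by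
  unfold pp
  fun_prop

private theorem pp_diff {a h y1 y2 : ℝ} (hh : 0 < h) (hy : y1 ≤ y2) :
    0 ≤ pp a h y2 - pp a h y1 ∧ pp a h y2 - pp a h y1 ≤ y2 - y1 := by
  rcases le_total y1 a with h1 | h1 <;> rcases le_total y2 a with h2 | h2
  · rw [pp_lo h1, pp_lo h2]; constructor <;> linarith
  · rcases le_total y2 (a + h) with h3 | h3
    · rw [pp_lo h1, pp_mid h2 h3]; constructor <;> linarith
    · rw [pp_lo h1, pp_hi hh.le h3]; constructor <;> linarith
  · have h4 : y1 = a := by linarith
    have h5 : y2 = a := by linarith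
    rw [h4, h5]; constructor <;> simp
  · rcases le_total y1 (a + h) with h3 | h3 <;> rcases le_total y2 (a + h) with h4 | h4
    · rw [pp_mid h1 h3, pp_mid h2 h4]; constructor <;> linarith
    · rw [pp_mid h1 h3, pp_hi hh.le h4]; constructor <;> linarith
    · have h5 : y1 = a + h := by linarith
      have h6 : y2 = a + h := by linarith
      rw [h5, h6]; constructor <;> simp
    · rw [pp_hi hh.le h3, pp_hi hh.le h4]; constructor <;> linarith

/-- the height function -/
private noncomputable def GG (κ a h y : ℝ) : ℝ := y - (1 - κ) * pp a h y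

private theorem pp_GG {κ a h : ℝ} (hκ : 0 < κ) (hh : 0 < h) (y : ℝ) :
    pp a (κ * h) (GG κ a h y) = κ * pp a h y := by
  unfold GG
  rcases le_total y a with h1 | h1
  · rw [pp_lo h1, mul_zero, sub_zero, pp_lo h1, mul_zero]
  · rcases le_total y (a + h) with h2 | h2
    · rw [pp_mid h1 h2, pp_mid]
      · ring
      · nlinarith
      · nlinarith
    · rw [pp_hi hh.le h2, pp_hi (by positivity)]
      nlinarith

private theorem GG_mono {κ a h : ℝ} (hκ : 0 < κ) (hh : 0 < h) {y1 y2 : ℝ} (hy : y1 < y2) :
    GG κ a h y1 < GG κ a h y2 := by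
  obtain ⟨e1, e2⟩ := pp_diff (a := a) hh hy.le
  unfold GG
  rcases le_total κ 1 with h1 | h1
  · nlinarith
  · nlinarith

/-! ### the plane -/

private noncomputable def qq (a h : ℝ) (z : ℂ) : ℝ := pp a h z.im

private theorem qq_lip {a h : ℝ} (hh : 0 < h) : LipschitzWith 1 (qq a h) := by
  refine LipschitzWith.of_dist_le_mul fun z w => ?_
  rw [NNReal.coe_one, one_mul, Real.dist_eq]
  have h1 : ‖z.im - w.im‖ ≤ dist z w := by
    rw [dist_eq_norm, ← Complex.sub_im]
    exact Complex.abs_im_le_norm _
  refine le_trans ?_ h1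
  rw [Real.norm_eq_abs]
  unfold qq
  rcases le_total z.im w.im with h2 | h2
  · obtain ⟨e1, e2⟩ := pp_diff (a := a) hh h2
    rw [abs_of_nonpos (by linarith), abs_of_nonpos (by linarith)]
    linarith
  · obtain ⟨e1, e2⟩ := pp_diff (a := a) hh h2
    rw [abs_of_nonneg (by linarith), abs_of_nonneg (by linarith)]
    exact e2

/-- the indicator function of the strip -/
private noncomputable def SS' (a h : ℝ) (z : ℂ) : ℂ :=
  if a < z.im ∧ z.im < a + h then 1 else 0

private theorem SS_meas (a h : ℝ) : Measurable (SS' a h) := by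
  unfold SS'
  refine Measurable.ite ?_ measurable_const measurable_const
  exact (isOpen_lt continuous_const Complex.continuous_im).measurableSet.inter
    (isOpen_lt Complex.continuous_im continuous_const).measurableSet

private theorem line_null (a : ℝ) : volume {z : ℂ | z.im = a} = 0 := by
  have h1 : volume {z : ℂ | z.im = 0} = 0 := by
    have h2 : {z : ℂ | z.im = 0} = ((LinearMap.ker Complex.imLm : Submodule ℝ ℂ) : Set ℂ) := by
      ext z
      simp
    rw [h2]
    apply Measure.addHaar_submodule
    intro h3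
    have h4 : Complex.I ∈ (LinearMap.ker Complex.imLm : Submodule ℝ ℂ) := by
      rw [h3]
      exact Submodule.mem_top
    simp at h4
  have h5 : {z : ℂ | z.im = a} = (fun z => z + (-(a * Complex.I))) ⁻¹' {z : ℂ | z.im = 0} := by
    ext z
    simp only [Set.mem_ofPred_eq, mem_preimage, Complex.add_im, Complex.neg_im, Complex.mul_im,
      Complex.ofReal_re, Complex.I_im, Complex.ofReal_im, Complex.I_re]
    constructor
    · intro h; linarith
    · intro h; linarith
  rw [h5, measure_preimage_add_right, h1]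

private theorem ld_one (a h : ℝ) (z : ℂ) : lineDeriv ℝ (qq a h) z 1 = 0 := by
  unfold lineDeriv
  have h1 : (fun t : ℝ => qq a h (z + t • (1 : ℂ))) = fun _ => qq a h z := by
    funext t
    unfold qq
    simp
  rw [h1]
  exact deriv_const _ _

private theorem ld_I {a h : ℝ} (hh : 0 < h) :
    ∀ᵐ z : ℂ, ((lineDeriv ℝ (qq a h) z Complex.I : ℝ) : ℂ) = SS' a h z := by
  have h1 : ∀ᵐ z : ℂ, z.im ≠ a := by
    rw [ae_iff]
    simpa using line_null a
  have h2 : ∀ᵐ z : ℂ, z.im ≠ a + h := by
    rw [ae_iff]
    simpa using line_null (a + h)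
  filter_upwards [h1, h2] with z hz1 hz2
  unfold lineDeriv
  have h3 : (fun t : ℝ => qq a h (z + t • Complex.I)) = fun t => pp a h (z.im + t) := by
    funext t
    unfold qq
    simp
  rw [h3]
  have hc : Continuous (fun t : ℝ => z.im + t) := by fun_prop
  rcases lt_or_gt_of_ne hz1 with h4 | h4
  · have h5 : (fun t => pp a h (z.im + t)) =ᶠ[𝓝 0] fun _ => 0 := by
      have h6 : ∀ᶠ t : ℝ in 𝓝 0, z.im + t < a :=
        hc.continuousAt.eventually_lt continuousAt_const (by simpa using h4)
      filter_upwards [h6] with t ht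
      exact pp_lo ht.le
    rw [h5.deriv_eq, deriv_const]
    unfold SS'
    rw [if_neg (by intro h7; linarith [h7.1])]
    simp
  · rcases lt_or_gt_of_ne hz2 with h5 | h5
    · have h6 : (fun t => pp a h (z.im + t)) =ᶠ[𝓝 0] fun t => z.im + t - a := by
        have h7 : ∀ᶠ t : ℝ in 𝓝 0, a < z.im + t :=
          continuousAt_const.eventually_lt hc.continuousAt (by simpa using h4)
        have h8 : ∀ᶠ t : ℝ in 𝓝 0, z.im + t < a + h :=
          hc.continuousAt.eventually_lt continuousAt_const (by simpa using h5)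
        filter_upwards [h7, h8] with t ht1 ht2
        exact pp_mid ht1.le ht2.le
      have h9 : deriv (fun t : ℝ => z.im + t - a) 0 = 1 := by
        have : HasDerivAt (fun t : ℝ => z.im + t - a) 1 0 :=
          ((hasDerivAt_id (0 : ℝ)).const_add z.im).sub_const a
        exact this.deriv
      rw [h6.deriv_eq, h9]
      unfold SS'
      rw [if_pos ⟨h4, h5⟩]
      simp
    · have h6 : (fun t => pp a h (z.im + t)) =ᶠ[𝓝 0] fun _ => h := by
        have h7 : ∀ᶠ t : ℝ in 𝓝 0, a + h < z.im + t :=
          continuousAt_const.eventually_lt hc.continuousAt (by simpa using h5)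
        filter_upwards [h7] with t ht
        exact pp_hi hh.le ht.le
      rw [h6.deriv_eq, deriv_const]
      unfold SS'
      rw [if_neg (by intro h7; linarith [h7.2])]
      simp

/-- integration by parts for a real Lipschitz function -/
private theorem ibp_lip {C : NNReal} {q : ℂ → ℝ} (hq : LipschitzWith C q) {φ : ℂ → ℂ}
    (h1 : ContDiff ℝ ∞ φ) (h2 : HasCompactSupport φ) (v : ℂ)
    (hi : Integrable (fun z => ((lineDeriv ℝ q z v : ℝ) : ℂ) * φ z)) :
    ∫ z, (q z : ℂ) * fderiv ℝ φ z v = - ∫ z, ((lineDeriv ℝ q z v : ℝ) : ℂ) * φ z := by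
  have hd : Differentiable ℝ φ := h1.differentiable (by simp)
  have hqc : Continuous (fun z => (q z : ℂ)) := Complex.continuous_ofReal.comp hq.continuous
  have hfc : Continuous (fun z => fderiv ℝ φ z v) :=
    (h1.continuous_fderiv (by simp)).clm_apply continuous_const
  have hfs : HasCompactSupport (fun z => fderiv ℝ φ z v) := h2.fderiv_apply ℝ v
  have hint : Integrable (fun z => (q z : ℂ) * fderiv ℝ φ z v) :=
    (hqc.mul hfc).integrable_of_hasCompactSupport hfs.mul_left
  -- real and imaginary parts
  have key : ∀ L : ℂ →L[ℝ] ℝ, (∀ (r : ℝ) (w : ℂ), L ((r : ℂ) * w) = r * L w) →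
      L (∫ z, (q z : ℂ) * fderiv ℝ φ z v) = L (- ∫ z, ((lineDeriv ℝ q z v : ℝ) : ℂ) * φ z) := by
    intro L hL
    have hg : ContDiff ℝ ∞ (fun z => L (φ z)) := L.contDiff.comp h1
    have hgs : HasCompactSupport (fun z => L (φ z)) := h2.comp_left (map_zero L)
    obtain ⟨D, hD⟩ : ∃ D, LipschitzWith D (fun z => L (φ z)) :=
      ContDiff.lipschitzWith_of_hasCompactSupport hgs hg (by simp)
    have h3 := hq.integral_lineDeriv_mul_eq (μ := volume) hD hgs v
    have h4 : ∀ z, lineDeriv ℝ (fun z => L (φ z)) z (-v) = - L (fderiv ℝ φ z v) := by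
      intro z
      have h5 : HasFDerivAt (fun z => L (φ z)) (L.comp (fderiv ℝ φ z)) z :=
        L.hasFDerivAt.comp z (hd z).hasFDerivAt
      rw [h5.differentiableAt.lineDeriv_eq_fderiv, h5.fderiv]
      simp
    simp only [h4] at h3
    rw [map_neg, ← L.integral_comp_comm hint, ← L.integral_comp_comm hi]
    simp only [hL]
    rw [h3, ← integral_neg]
    apply integral_congr_ae
    filter_upwards with z
    ring
  apply Complex.ext
  · exact key Complex.reCLM (fun r w => by simp)
  · exact key Complex.imCLM (fun r w => by simp)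

private theorem int_S {a h : ℝ} {φ : ℂ → ℂ} (h1 : Integrable φ) :
    Integrable (fun z => SS' a h z * φ z) := by
  refine h1.bdd_mul (c := 1) (SS_meas a h).aestronglyMeasurable ?_
  filter_upwards with z
  unfold SS'
  split_ifs <;> simp

private theorem qq_one {a h : ℝ} (hh : 0 < h) {φ : ℂ → ℂ} (h1 : ContDiff ℝ ∞ φ)
    (h2 : HasCompactSupport φ) : ∫ z, (qq a h z : ℂ) * fderiv ℝ φ z 1 = 0 := by
  rw [ibp_lip (qq_lip hh) h1 h2 1 (by simp [ld_one])]
  simp [ld_one]

private theorem qq_I {a h : ℝ} (hh : 0 < h) {φ : ℂ → ℂ} (h1 : ContDiff ℝ ∞ φ)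
    (h2 : HasCompactSupport φ) :
    ∫ z, (qq a h z : ℂ) * fderiv ℝ φ z Complex.I = - ∫ z, SS' a h z * φ z := by
  have h3 : (fun z => ((lineDeriv ℝ (qq a h) z Complex.I : ℝ) : ℂ) * φ z) =ᵐ[volume]
      fun z => SS' a h z * φ z := by
    filter_upwards [ld_I (a := a) hh] with z hz
    rw [hz]
  have h4 : Integrable φ := h1.continuous.integrable_of_hasCompactSupport h2
  rw [ibp_lip (qq_lip hh) h1 h2 Complex.I ((int_S h4).congr h3.symm), integral_congr_ae h3]

/-! ### the map -/

private noncomputable def cf (t : ℂ) : ℂ := -2 * Complex.I * t / (1 + t)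

private theorem one_add_ne {t : ℂ} (ht : ‖t‖ < 1) : 1 + t ≠ 0 := by
  intro h
  have h1 : t = -1 := by linear_combination h
  rw [h1, norm_neg, norm_one] at ht
  exact lt_irrefl _ ht

private theorem hf_pos {t : ℂ} (ht : ‖t‖ < 1) : 0 < hf t := by
  unfold hf
  have h1 := one_add_ne ht
  rw [Complex.div_re, ← add_div]
  have h2 : 0 < Complex.normSq (1 + t) := Complex.normSq_pos.2 h1
  apply div_pos _ h2
  have h3 : t.re ^ 2 + t.im ^ 2 < 1 := by
    have h4 : ‖t‖ ^ 2 < 1 := by nlinarith [norm_nonneg t]
    rw [Complex.sq_norm, Complex.normSq_apply] at h4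
    nlinarith
  simp only [Complex.sub_re, Complex.sub_im, Complex.add_re, Complex.add_im, Complex.one_re,
    Complex.one_im]
  nlinarith

private theorem cf_im {t : ℂ} (ht : ‖t‖ < 1) : (cf t).im = hf t - 1 := by
  have h1 := one_add_ne ht
  have h2 : (1 - t) / (1 + t) - 1 = -2 * t / (1 + t) := by
    field_simp
    ring
  have h3 : hf t - 1 = ((1 - t) / (1 + t) - 1).re := by
    unfold hf
    rw [Complex.sub_re, Complex.one_re]
  rw [h3, h2]
  unfold cf
  rw [show -2 * Complex.I * t / (1 + t) = Complex.I * (-2 * t / (1 + t)) by ring, Complex.mul_im]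
  simp

private noncomputable def FF (t : ℂ) (a h : ℝ) (z : ℂ) : ℂ := z + cf t * (qq a h z : ℂ)

private theorem FF_im {t : ℂ} (ht : ‖t‖ < 1) (a h : ℝ) (z : ℂ) :
    (FF t a h z).im = GG (hf t) a h z.im := by
  unfold FF GG qq
  rw [Complex.add_im, Complex.mul_im, cf_im ht]
  simp
  ring

private theorem LT_eq {t : ℂ} (ht : ‖t‖ < 1) (w : ℂ) : LT t w = w + cf t * (w.im : ℂ) := by
  have h1 := one_add_ne ht
  have h2 : conj w = w - 2 * Complex.I * (w.im : ℂ) := by
    apply Complex.ext
    · simp
    · simp
      ring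
  unfold Pool.Agent.Helper20.QP.LT cf
  rw [h2]
  field_simp
  ring

private theorem LE_eq {t : ℂ} (ht : ‖t‖ < 1) {a h : ℝ} (hh : 0 < h) (w : ℂ) :
    LE t a h w = FF t a h w := by
  unfold Pool.Agent.Helper20.QP.LE FF qq
  split_ifs with h1 h2
  · rw [pp_lo h1]
    simp
  · push Not at h1
    rw [pp_mid h1.le h2, LT_eq ht]
    have h3 : (w - a * Complex.I).im = w.im - a := by simp
    rw [h3]
    ring
  · push Not at h1 h2
    rw [pp_hi hh.le h2.le, LT_eq ht]
    have h3 : ((h : ℂ) * Complex.I).im = h := by simp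
    rw [h3]
    ring

private noncomputable def FH (t : ℂ) (a h : ℝ) (ht : ‖t‖ < 1) (hh : 0 < h) : ℂ ≃ₜ ℂ where
  toFun := FF t a h
  invFun := fun w => w - cf t / (hf t : ℂ) * (qq a (hf t * h) w : ℂ)
  left_inv := by
    intro z
    show FF t a h z - cf t / (hf t : ℂ) * (qq a (hf t * h) (FF t a h z) : ℂ) = z
    have h0 := hf_pos ht
    have h0' : (hf t : ℂ) ≠ 0 := by exact_mod_cast h0.ne'
    have h1 : qq a (hf t * h) (FF t a h z) = hf t * qq a h z := by
      unfold qq
      rw [FF_im ht, pp_GG h0 hh]
    rw [h1]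
    unfold FF
    push_cast
    field_simp
    ring
  right_inv := by
    intro w
    have h0 := hf_pos ht
    have h0' : (hf t : ℂ) ≠ 0 := by exact_mod_cast h0.ne'
    have h1 : (cf t / (hf t : ℂ)).im = (hf t - 1) / hf t := by
      rw [Complex.div_ofReal_im, cf_im ht]
    have h2 : (w - cf t / (hf t : ℂ) * (qq a (hf t * h) w : ℂ)).im =
        GG (hf t)⁻¹ a (hf t * h) w.im := by
      rw [Complex.sub_im, Complex.mul_im, h1, Complex.ofReal_re, Complex.ofReal_im]
      unfold GG qq
      field_simp
      ring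
    have h3 : qq a h (w - cf t / (hf t : ℂ) * (qq a (hf t * h) w : ℂ)) =
        (hf t)⁻¹ * qq a (hf t * h) w := by
      unfold qq
      have h4 := pp_GG (a := a) (inv_pos.2 h0) (mul_pos h0 hh) w.im
      rw [inv_mul_cancel_left₀ h0.ne'] at h4
      rw [← h4]
      congr 1
    show FF t a h (w - cf t / (hf t : ℂ) * (qq a (hf t * h) w : ℂ)) = w
    unfold FF
    rw [h3]
    push_cast
    field_simp
    ring
  continuous_toFun := by
    unfold FF qq
    exact continuous_id.add (continuous_const.mul
      (Complex.continuous_ofReal.comp ((pp_cont a h).comp Complex.continuous_im)))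
  continuous_invFun := by
    unfold qq
    exact continuous_id.sub (continuous_const.mul
      (Complex.continuous_ofReal.comp ((pp_cont a _).comp Complex.continuous_im)))

private theorem FF_wd {t : ℂ} (ht : ‖t‖ < 1) {a h : ℝ} (hh : 0 < h) :
    WD univ (FF t a h) (fun z => 1 - t / (1 + t) * SS' a h z) (fun z => t / (1 + t) * SS' a h z) := by
  have hSb : ∀ z, ‖SS' a h z‖ ≤ 1 := by
    intro z
    unfold SS'
    split_ifs <;> simp
  have hL2 : ∀ (A : ℂ → ℂ) (C : ℝ), Measurable A → (∀ z, ‖A z‖ ≤ C) → L2 univ A := by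
    intro A C hA hC K _ hK
    have : IsFiniteMeasure ((volume : Measure ℂ).restrict K) :=
      ⟨by rw [Measure.restrict_apply_univ]; exact hK.measure_lt_top⟩
    exact MemLp.of_bound hA.aestronglyMeasurable C (ae_of_all _ hC)
  have hqc : Continuous (fun z : ℂ => (qq a h z : ℂ)) := by
    unfold qq
    exact Complex.continuous_ofReal.comp ((pp_cont a h).comp Complex.continuous_im)
  have hcf : cf t * Complex.I = 2 * (t / (1 + t)) := by
    unfold cf
    rw [show -2 * Complex.I * t / (1 + t) * Complex.I = -2 * (Complex.I * Complex.I) * (t / (1 + t)) by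
      ring, Complex.I_mul_I]
    ring
  refine ⟨(FH t a h ht hh).continuous.continuousOn, hL2 _ (1 + ‖t / (1 + t)‖) ?_ ?_,
    hL2 _ ‖t / (1 + t)‖ ?_ ?_, ?_, ?_⟩
  · exact measurable_const.sub ((SS_meas a h).const_mul _)
  · intro z
    refine (norm_sub_le _ _).trans ?_
    rw [norm_one, norm_mul]
    have := hSb z
    have := norm_nonneg (t / (1 + t))
    nlinarith
  · exact (SS_meas a h).const_mul _
  · intro z
    rw [norm_mul]
    have := hSb z
    have := norm_nonneg (t / (1 + t))
    nlinarith
  · intro φ hφ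
    have hφi : Integrable φ := hφ.smooth.continuous.integrable_of_hasCompactSupport hφ.cpt
    have hfc : ∀ v : ℂ, Continuous (fun z => fderiv ℝ φ z v) := fun v =>
      (hφ.smooth.continuous_fderiv (by simp)).clm_apply continuous_const
    have hfs : ∀ v : ℂ, HasCompactSupport (fun z => fderiv ℝ φ z v) := fun v =>
      hφ.cpt.fderiv_apply ℝ v
    have hqi : ∀ v : ℂ, Integrable (fun z => (qq a h z : ℂ) * fderiv ℝ φ z v) := fun v =>
      (hqc.mul (hfc v)).integrable_of_hasCompactSupport (hfs v).mul_left
    have h1 := qq_one (a := a) hh hφ.smooth hφ.cpt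
    have h2 := qq_I (a := a) hh hφ.smooth hφ.cpt
    have h3 : ∫ z, (fun x : ℂ => x) z * Pool.Agent.Helper68.QC.dz φ z =
        - ∫ z, Pool.Agent.Helper68.QC.dz (fun x : ℂ => x) z * φ z :=
      Pool.Agent.Helper68.QC.ibp_dz contDiff_id hφ
    simp only [Pool.Agent.Helper68.QC.dz_id, one_mul] at h3
    have hzi : Integrable (fun z : ℂ => z * Pool.Agent.Helper68.QC.dz φ z) := by
      have h4 := Pool.Agent.Helper68.QC.Tst.hdz hφ
      exact (continuous_id.mul h4.smooth.continuous).integrable_of_hasCompactSupport h4.cpt.mul_left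
    have e1 : ∀ z, FF t a h z * Pool.Agent.Helper68.QC.dz φ z = z * Pool.Agent.Helper68.QC.dz φ z +
        (cf t / 2 * ((qq a h z : ℂ) * fderiv ℝ φ z 1) -
          cf t * Complex.I / 2 * ((qq a h z : ℂ) * fderiv ℝ φ z Complex.I)) := by
      intro z
      unfold FF Pool.Agent.Helper68.QC.dz
      ring
    have e2 : ∀ z, (1 - t / (1 + t) * SS' a h z) * φ z = φ z - t / (1 + t) * (SS' a h z * φ z) := by
      intro z
      ring
    have hA := (hqi 1).const_mul (cf t / 2)
    have hB := (hqi Complex.I).const_mul (cf t * Complex.I / 2)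
    have hAB : Integrable (fun z => cf t / 2 * ((qq a h z : ℂ) * fderiv ℝ φ z 1) -
        cf t * Complex.I / 2 * ((qq a h z : ℂ) * fderiv ℝ φ z Complex.I)) := hA.sub hB
    simp only [e1, e2]
    rw [integral_add hzi hAB, integral_sub hA hB, integral_const_mul,
      integral_const_mul, h1, h2, h3, integral_sub hφi ((int_S hφi).const_mul _),
      integral_const_mul, hcf]
    ring
  · intro φ hφ
    have hφi : Integrable φ := hφ.smooth.continuous.integrable_of_hasCompactSupport hφ.cpt
    have hfc : ∀ v : ℂ, Continuous (fun z => fderiv ℝ φ z v) := fun v =>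
      (hφ.smooth.continuous_fderiv (by simp)).clm_apply continuous_const
    have hfs : ∀ v : ℂ, HasCompactSupport (fun z => fderiv ℝ φ z v) := fun v =>
      hφ.cpt.fderiv_apply ℝ v
    have hqi : ∀ v : ℂ, Integrable (fun z => (qq a h z : ℂ) * fderiv ℝ φ z v) := fun v =>
      (hqc.mul (hfc v)).integrable_of_hasCompactSupport (hfs v).mul_left
    have h1 := qq_one (a := a) hh hφ.smooth hφ.cpt
    have h2 := qq_I (a := a) hh hφ.smooth hφ.cpt
    have h3 : ∫ z, (fun x : ℂ => x) z * Pool.Agent.Helper68.QC.dzb φ z =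
        - ∫ z, Pool.Agent.Helper68.QC.dzb (fun x : ℂ => x) z * φ z :=
      Pool.Agent.Helper68.QC.ibp_dzb contDiff_id hφ
    simp only [Pool.Agent.Helper68.QC.dzb_id, zero_mul, integral_zero, neg_zero] at h3
    have hzi : Integrable (fun z : ℂ => z * Pool.Agent.Helper68.QC.dzb φ z) := by
      have h4 := Pool.Agent.Helper68.QC.Tst.hdzb hφ
      exact (continuous_id.mul h4.smooth.continuous).integrable_of_hasCompactSupport h4.cpt.mul_left
    have e1 : ∀ z, FF t a h z * Pool.Agent.Helper68.QC.dzb φ z = z * Pool.Agent.Helper68.QC.dzb φ z +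
        (cf t / 2 * ((qq a h z : ℂ) * fderiv ℝ φ z 1) +
          cf t * Complex.I / 2 * ((qq a h z : ℂ) * fderiv ℝ φ z Complex.I)) := by
      intro z
      unfold FF Pool.Agent.Helper68.QC.dzb
      ring
    have e2 : ∀ z, (t / (1 + t) * SS' a h z) * φ z = t / (1 + t) * (SS' a h z * φ z) := by
      intro z
      ring
    have hA := (hqi 1).const_mul (cf t / 2)
    have hB := (hqi Complex.I).const_mul (cf t * Complex.I / 2)
    have hAB : Integrable (fun z => cf t / 2 * ((qq a h z : ℂ) * fderiv ℝ φ z 1) +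
        cf t * Complex.I / 2 * ((qq a h z : ℂ) * fderiv ℝ φ z Complex.I)) := hA.add hB
    simp only [e1, e2]
    rw [integral_add hzi hAB, integral_add hA hB, integral_const_mul,
      integral_const_mul, h1, h2, h3, integral_const_mul, hcf]
    ring

/-- the linear homeomorphism -/
private noncomputable def LH (t : ℂ) (ht : ‖t‖ < 1) : ℂ ≃ₜ ℂ where
  toFun := LT t
  invFun := fun w => ((1 + t) * w - t * conj ((1 + t) * w)) / (1 - t * conj t)
  left_inv := by
    intro z
    have h1 := one_add_ne ht
    have h2 : 1 - t * conj t ≠ 0 := by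
      intro h
      have h3 : t * conj t = 1 := by linear_combination -h
      have h4 : ‖t * conj t‖ < 1 := by
        rw [norm_mul, RCLike.norm_conj]
        nlinarith [norm_nonneg t]
      rw [h3, norm_one] at h4
      exact lt_irrefl _ h4
    show ((1 + t) * LT t z - t * conj ((1 + t) * LT t z)) / (1 - t * conj t) = z
    have h3 : (1 + t) * LT t z = z + t * conj z := by
      unfold Pool.Agent.Helper20.QP.LT
      rw [mul_div_cancel₀ _ h1]
    rw [h3, map_add, map_mul, Complex.conj_conj, div_eq_iff h2]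
    ring
  right_inv := by
    intro w
    have h1 := one_add_ne ht
    have h2 : 1 - t * conj t ≠ 0 := by
      intro h
      have h3 : t * conj t = 1 := by linear_combination -h
      have h4 : ‖t * conj t‖ < 1 := by
        rw [norm_mul, RCLike.norm_conj]
        nlinarith [norm_nonneg t]
      rw [h3, norm_one] at h4
      exact lt_irrefl _ h4
    have h5 : 1 - conj t * t ≠ 0 := by rwa [mul_comm]
    show LT t (((1 + t) * w - t * conj ((1 + t) * w)) / (1 - t * conj t)) = w
    unfold Pool.Agent.Helper20.QP.LT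
    rw [div_eq_iff h1]
    simp only [map_div₀, map_sub, map_mul, map_add, map_one, Complex.conj_conj]
    rw [mul_comm (conj t) t]
    field_simp
    ring
  continuous_toFun := by
    unfold Pool.Agent.Helper20.QP.LT
    have := one_add_ne ht
    exact (continuous_id.add (continuous_const.mul Complex.continuous_conj)).div_const _
  continuous_invFun := by
    have h1 : Continuous (fun w : ℂ => (1 + t) * w) := continuous_const.mul continuous_id
    exact (h1.sub (continuous_const.mul (Complex.continuous_conj.comp h1))).div_const _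

private theorem LT_der {t : ℂ} (z : ℂ) : Pool.Agent.Helper68.QC.dz (LT t) z = 1 / (1 + t) ∧
    Pool.Agent.Helper68.QC.dzb (LT t) z = t / (1 + t) := by
  have h1 : HasFDerivAt (LT t) (Pool.Agent.Helper68.QC.lin (1 / (1 + t)) (t / (1 + t))) z := by
    have h2 : LT t = fun w => Pool.Agent.Helper68.QC.lin (1 / (1 + t)) (t / (1 + t)) w := by
      funext w
      rw [Pool.Agent.Helper68.QC.lin_apply]
      unfold Pool.Agent.Helper20.QP.LT
      ring
    rw [h2]
    exact (Pool.Agent.Helper68.QC.lin (1 / (1 + t)) (t / (1 + t))).hasFDerivAt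
  exact Pool.Agent.Helper68.QC.dz_of_has h1

theorem hLEQ (hQUNI : StQUNI) : StLEQ := by
  intro t a h ht ha hh
  have h1 := one_add_ne ht
  have hκ := hf_pos ht
  have himg : ∀ b c : ℝ, LE t a h '' Sab b c = Sab (GG (hf t) a h b) (GG (hf t) a h c) := by
    intro b c
    have hm : ∀ x y : ℝ, GG (hf t) a h x < GG (hf t) a h y ↔ x < y := by
      intro x y
      constructor
      · intro h2
        by_contra h3
        push Not at h3
        rcases h3.lt_or_eq with h4 | h4
        · exact absurd h2 (not_lt.2 (GG_mono hκ hh h4).le)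
        · rw [h4] at h2
          exact lt_irrefl _ h2
      · exact fun h2 => GG_mono hκ hh h2
    ext w
    constructor
    · rintro ⟨z, ⟨hz1, hz2⟩, rfl⟩
      rw [LE_eq ht hh]
      refine ⟨?_, ?_⟩
      · rw [FF_im ht, hm]
        exact hz1
      · rw [FF_im ht, hm]
        exact hz2
    · rintro ⟨hw1, hw2⟩
      have h2 : FF t a h ((FH t a h ht hh).symm w) = w := (FH t a h ht hh).apply_symm_apply w
      refine ⟨(FH t a h ht hh).symm w, ⟨?_, ?_⟩, ?_⟩
      · rw [← h2, FF_im ht, hm] at hw1
        exact hw1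
      · rw [← h2, FF_im ht, hm] at hw2
        exact hw2
      · rw [LE_eq ht hh, h2]
  refine ⟨?_, ?_, ?_, hκ, ?_, ?_, ?_⟩
  · intro z
    have hb : Bel ‖t‖ (fun w : ℂ => if a < w.im ∧ w.im < a + h then t else 0) := by
      refine ⟨?_, ?_⟩
      · refine Measurable.ite ?_ measurable_const measurable_const
        exact (isOpen_lt continuous_const Complex.continuous_im).measurableSet.inter
          (isOpen_lt Complex.continuous_im continuous_const).measurableSet
      · intro z
        split_ifs
        · exact le_rfl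
        · rw [norm_zero]
          exact norm_nonneg t
    have h0 : FH t a h ht hh 0 = 0 := by
      show FF t a h 0 = 0
      unfold FF qq
      rw [pp_lo (by simpa using ha)]
      simp
    have h1' : FH t a h ht hh 1 = 1 := by
      show FF t a h 1 = 1
      unfold FF qq
      rw [pp_lo (by simpa using ha)]
      simp
    have hsol : Sol (fun w : ℂ => if a < w.im ∧ w.im < a + h then t else 0) (∅ : Set ℂ)ᶜ
        (FH t a h ht hh) := by
      rw [Set.compl_empty]
      refine ⟨_, _, FF_wd ht hh, ?_⟩
      filter_upwards with z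
      unfold SS'
      split_ifs with h2
      · field_simp
        ring
      · simp
    have h2 := hQUNI ‖t‖ ht _ hb (FH t a h ht hh) h0 h1' ∅ Set.finite_empty hsol
    rw [← h2, LE_eq ht hh]
    rfl
  · intro z
    have hb : Bel ‖t‖ (fun _ : ℂ => t) := ⟨measurable_const, fun _ => le_rfl⟩
    have h0 : LH t ht 0 = 0 := by
      show LT t 0 = 0
      unfold Pool.Agent.Helper20.QP.LT
      simp
    have h1' : LH t ht 1 = 1 := by
      show LT t 1 = 1
      unfold Pool.Agent.Helper20.QP.LT
      simp [h1]
    have hsm : ContDiff ℝ ∞ (LT t) := by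
      have h2 : LT t = fun w => Pool.Agent.Helper68.QC.lin (1 / (1 + t)) (t / (1 + t)) w := by
        funext w
        rw [Pool.Agent.Helper68.QC.lin_apply]
        unfold Pool.Agent.Helper20.QP.LT
        ring
      rw [h2]
      exact (Pool.Agent.Helper68.QC.lin (1 / (1 + t)) (t / (1 + t))).contDiff
    have hsol : Sol (fun _ : ℂ => t) (∅ : Set ℂ)ᶜ (LH t ht) := by
      rw [Set.compl_empty]
      refine ⟨_, _, Pool.Agent.Helper68.QC.wd_smooth hsm univ, ?_⟩
      filter_upwards with z
      rw [(LT_der z).1, (LT_der z).2]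
      ring
    have h2 := hQUNI ‖t‖ ht _ hb (LH t ht) h0 h1' ∅ Set.finite_empty hsol
    rw [← h2]
    rfl
  · intro w
    rw [LT_eq ht, Complex.add_im, Complex.mul_im, cf_im ht]
    simp
    ring
  · intro w
    rw [LE_eq ht hh, LE_eq ht hh]
    unfold FF qq
    simp
    ring
  · intro b c hb hc
    rw [himg]
    unfold GG
    rw [pp_lo hb, pp_hi hh.le hc]
    congr 1 <;> ring
  · rw [himg]
    unfold GG
    rw [pp_lo le_rfl, pp_hi hh.le le_rfl]
    congr 1 <;> ring

end Pool.Agent.Helper44.QP
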